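import Mathlib
import Pool.Agent.E8helper19.QC.Stm

/-!
# QC11: in even dimensions the operator is the iterated Laplacian
-/

set_option autoImplicit false
open MeasureTheory Filter Topology SchwartzMap FourierTransform Laplacian
open scoped ContDiff ENNReal Real

namespace Pool.Agent.E8helper36.QC

open Pool.Agent.E8helper19.QC

/-- the Fourier transform of the Laplacian -/
lemma fourier_lap {n : ℕ} (f : 𝓢(E n, ℂ)) (ξ : E n) :
    𝓕 ((Δ f : 𝓢(E n, ℂ)) : E n → ℂ) ξ = -(((2 * π * ‖ξ‖) ^ 2 : ℝ) : ℂ) * 𝓕 (f : E n → ℂ) ξ := by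
  have h1 := congrArg (fun g : 𝓢(E n, ℂ) => 𝓕 g) (laplacian_eq_fourierMultiplierCLM f)
  simp only [fourierMultiplierCLM_apply] at h1
  have h2 : 𝓕 (Δ f : 𝓢(E n, ℂ)) =
      -(2 * π) ^ 2 • (smulLeftCLM ℂ (fun x : E n => ‖x‖ ^ 2) (𝓕 f)) := by
    rw [h1, FourierTransform.fourier_smul, FourierTransform.fourier_fourierInv_eq]
  have h3 := congrArg (fun g : 𝓢(E n, ℂ) => g ξ) h2
  simp only [SchwartzMap.fourier_coe, smul_apply] at h3
  rw [h3, smulLeftCLM_apply_apply (by fun_prop)]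
  simp only [SchwartzMap.fourier_coe]
  simp only [Complex.real_smul]
  push_cast
  ring

/-- iterates -/
lemma fourier_lap_iter {n : ℕ} (f : 𝓢(E n, ℂ)) (k : ℕ) (ξ : E n) :
    𝓕 (((Laplacian.laplacian (E := 𝓢(E n, ℂ)) (F := 𝓢(E n, ℂ)))^[k] f : 𝓢(E n, ℂ)) : E n → ℂ) ξ =
      (-1) ^ k * (((2 * π * ‖ξ‖) ^ (2 * k) : ℝ) : ℂ) * 𝓕 (f : E n → ℂ) ξ := by
  induction k with
  | zero => simp
  | succ k ih =>
    rw [Function.iterate_succ_apply', fourier_lap, ih]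
    push_cast
    ring

lemma lap_iter_coe {n : ℕ} (Φ : 𝓢(E n, ℂ)) (φ : E n → ℝ) (h : ∀ x, Φ x = (φ x : ℂ)) (k : ℕ) :
    ∀ x, ((Laplacian.laplacian (E := 𝓢(E n, ℂ)) (F := 𝓢(E n, ℂ)))^[k] Φ : 𝓢(E n, ℂ)) x =
      (((Laplacian.laplacian^[k] φ) x : ℝ) : ℂ) := by
  induction k with
  | zero => exact h
  | succ k ih =>
    intro x
    rw [Function.iterate_succ_apply', Function.iterate_succ_apply']
    set Ψ : 𝓢(E n, ℂ) := (Laplacian.laplacian (E := 𝓢(E n, ℂ)) (F := 𝓢(E n, ℂ)))^[k] Φ with hΨ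
    set ψ : E n → ℝ := Laplacian.laplacian^[k] φ with hψ
    have h1 : (Ψ : E n → ℂ) = Complex.ofRealCLM ∘ ψ := by
      funext y
      exact ih y
    have h2 : ψ = Complex.reCLM ∘ (Ψ : E n → ℂ) := by
      funext y
      rw [Function.comp_apply, ih y]
      simp
    have h3 : ContDiff ℝ ∞ ψ := by
      rw [h2]
      exact Complex.reCLM.contDiff.comp Ψ.smooth'
    rw [SchwartzMap.laplacian_apply, h1]
    have h4 : ContDiffAt ℝ 2 ψ x := (h3.of_le (by norm_cast)).contDiffAt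
    rw [h4.laplacian_CLM_comp_left]
    rfl

theorem t_EVEN : S_EVEN := by
  intro n φ hn hφ hc
  have hcΦ : HasCompactSupport (fun x => (φ x : ℂ)) := hc.comp_left (g := Complex.ofReal) rfl
  have hdΦ : ContDiff ℝ ∞ (fun x => (φ x : ℂ)) := Complex.ofRealCLM.contDiff.comp hφ
  refine ⟨hcΦ.toSchwartzMap hdΦ, fun x => rfl, ?_⟩
  set Φ : 𝓢(E n, ℂ) := hcΦ.toSchwartzMap hdΦ with hΦ
  intro x
  obtain ⟨k, hk⟩ := hn
  have hk2 : n = 2 * k := by omega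
  have hn2 : n / 2 = k := by omega
  set Ψ : 𝓢(E n, ℂ) := (Laplacian.laplacian (E := 𝓢(E n, ℂ)) (F := 𝓢(E n, ℂ)))^[k] Φ with hΨ
  have h1 : (fun ξ : E n => (((2 * π * ‖ξ‖) ^ n : ℝ) : ℂ) * 𝓕 (Φ : E n → ℂ) ξ) =
      𝓕 (((-1 : ℂ) ^ k • Ψ : 𝓢(E n, ℂ)) : E n → ℂ) := by
    funext ξ
    have h2 : 𝓕 (((-1 : ℂ) ^ k • Ψ : 𝓢(E n, ℂ)) : E n → ℂ) ξ =
        (-1 : ℂ) ^ k * 𝓕 (Ψ : E n → ℂ) ξ := by
      rw [← SchwartzMap.fourier_coe, FourierTransform.fourier_smul, smul_apply,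
        SchwartzMap.fourier_coe, smul_eq_mul]
    rw [h2, fourier_lap_iter, ← hk2, ← mul_assoc, ← mul_assoc, ← mul_pow]
    norm_num
  unfold FL
  rw [h1, ← SchwartzMap.fourier_coe, ← SchwartzMap.fourierInv_coe,
    FourierTransform.fourierInv_fourier_eq, smul_apply, hn2, lap_iter_coe Φ φ (fun x => rfl) k x]
  push_cast
  rfl

end Pool.Agent.E8helper36.QC
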