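import Mathlib
import Pool.Agent.E8helper19.QC.Stm

/-!
# QC5: weak sequential compactness of bounded densities
-/

set_option autoImplicit false
open MeasureTheory Filter Topology
open scoped ENNReal Real

namespace Pool.Agent.E8helper36.QC

open Pool.Agent.E8helper19.QC

theorem t_WK : S_WK := by
  intro n ν hν B θ hθm hθ
  have hB : 0 ≤ B := (hθ 0 0).1.trans (hθ 0 0).2
  have hmem : ∀ k, MemLp (θ k) 2 ν := by
    intro k
    refine MemLp.of_bound (hθm k).aestronglyMeasurable B (Eventually.of_forall fun x => ?_)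
    rw [Real.norm_of_nonneg (hθ k x).1]
    exact (hθ k x).2
  set u : ℕ → Lp ℝ 2 ν := fun k => (hmem k).toLp (θ k) with hu
  obtain ⟨C, hC⟩ : ∃ C : ℝ, ∀ k, ‖u k‖ ≤ C := by
    refine ⟨(ν.real Set.univ) ^ ((2 : ℝ≥0∞).toReal)⁻¹ * B, fun k => ?_⟩
    have h1 : ∀ᵐ x ∂ν, ‖u k x‖ ≤ B := by
      filter_upwards [(hmem k).coeFn_toLp] with x hx
      rw [hu]
      simp only
      rw [hx, Real.norm_of_nonneg (hθ k x).1]
      exact (hθ k x).2
    exact Lp.norm_le_of_ae_bound hB h1
  -- weak limit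
  have hfact : Fact ((2 : ℝ≥0∞) ≠ ⊤) := ⟨by norm_num⟩
  have hsc := Lp.SecondCountableTopology (E := ℝ) (p := 2) (μ := ν)
  have hseq := WeakDual.isSeqCompact_closedBall ℝ (Lp ℝ 2 ν) (0 : StrongDual ℝ (Lp ℝ 2 ν)) C
  obtain ⟨φ, -, σ, hσ, hlim⟩ := hseq (x := fun k => StrongDual.toWeakDual
    (InnerProductSpace.toDual ℝ (Lp ℝ 2 ν) (u k))) (by
      intro k
      show WeakDual.toStrongDual (StrongDual.toWeakDual
        (InnerProductSpace.toDual ℝ (Lp ℝ 2 ν) (u k))) ∈ Metric.closedBall 0 C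
      rw [mem_closedBall_zero_iff]
      have h1 : WeakDual.toStrongDual (StrongDual.toWeakDual
        (InnerProductSpace.toDual ℝ (Lp ℝ 2 ν) (u k))) =
          InnerProductSpace.toDual ℝ (Lp ℝ 2 ν) (u k) := rfl
      rw [h1, LinearIsometryEquiv.norm_map]
      exact hC k)
  set w : Lp ℝ 2 ν := (InnerProductSpace.toDual ℝ (Lp ℝ 2 ν)).symm
    (WeakDual.toStrongDual φ) with hw
  have hweak : ∀ h : Lp ℝ 2 ν, Tendsto (fun k => (inner ℝ (u (σ k)) h : ℝ)) atTop
      (𝓝 (inner ℝ w h)) := by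
    intro h
    have h1 := (tendsto_pi_nhds.1 ((WeakDual.coeFn_continuous.tendsto φ).comp hlim)) h
    have h2 : (φ h : ℝ) = inner ℝ w h := by
      rw [hw, InnerProductSpace.toDual_symm_apply]
      rfl
    rw [← h2]
    exact h1
  have hinner : ∀ (f : Lp ℝ 2 ν) (g : E n → ℝ) (hg : MemLp g 2 ν),
      (inner ℝ f (hg.toLp g) : ℝ) = ∫ x, g x * f x ∂ν := by
    intro f g hg
    rw [L2.inner_def]
    refine integral_congr_ae ?_
    filter_upwards [hg.coeFn_toLp] with x hx
    rw [hx]
    simp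
  have hconv : ∀ g : E n → ℝ, MemLp g 2 ν →
      Tendsto (fun k => ∫ x, g x * θ (σ k) x ∂ν) atTop (𝓝 (∫ x, g x * w x ∂ν)) := by
    intro g hg
    have h1 := hweak (hg.toLp g)
    rw [hinner w g hg] at h1
    refine h1.congr fun k => ?_
    rw [hinner (u (σ k)) g hg]
    refine integral_congr_ae ?_
    filter_upwards [(hmem (σ k)).coeFn_toLp] with x hx
    rw [hu]
    simp only
    rw [hx]
  -- sets
  have hset : ∀ A : Set (E n), MeasurableSet A →
      Tendsto (fun k => ∫ x in A, θ (σ k) x ∂ν) atTop (𝓝 (∫ x in A, w x ∂ν)) := by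
    intro A hA
    have h1 := hconv (A.indicator fun _ => (1 : ℝ))
      (memLp_indicator_const 2 hA 1 (Or.inr (measure_ne_top ν A)))
    have h2 : ∀ f : E n → ℝ, ∫ x, A.indicator (fun _ => (1 : ℝ)) x * f x ∂ν =
        ∫ x in A, f x ∂ν := by
      intro f
      rw [← integral_indicator hA]
      congr 1
      funext x
      by_cases hx : x ∈ A
      · simp [hx]
      · simp [hx]
    simp only [h2] at h1
    exact h1
  have hwint : Integrable (fun x => w x) ν := by
    have h1 : MemLp (fun x => w x) 2 ν := Lp.memLp w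
    exact h1.integrable (by norm_num)
  have hθint : ∀ k, Integrable (θ k) ν := fun k => (hmem k).integrable (by norm_num)
  have hw0 : 0 ≤ᵐ[ν] fun x => w x := by
    refine ae_nonneg_of_forall_setIntegral_nonneg hwint ?_
    intro A hA _
    exact ge_of_tendsto' (hset A hA) fun k => setIntegral_nonneg hA fun x _ => (hθ (σ k) x).1
  have hwB : 0 ≤ᵐ[ν] fun x => B - w x := by
    refine ae_nonneg_of_forall_setIntegral_nonneg ((integrable_const B).sub hwint) ?_
    intro A hA _
    rw [integral_sub (integrable_const B).integrableOn hwint.integrableOn]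
    have h1 : Tendsto (fun k => (∫ x in A, B ∂ν) - ∫ x in A, θ (σ k) x ∂ν) atTop
        (𝓝 ((∫ x in A, B ∂ν) - ∫ x in A, w x ∂ν)) := (hset A hA).const_sub _
    refine ge_of_tendsto' h1 fun k => ?_
    rw [← integral_sub (integrable_const B).integrableOn (hθint (σ k)).integrableOn]
    exact setIntegral_nonneg hA fun x _ => sub_nonneg.2 (hθ (σ k) x).2
  refine ⟨σ, fun x => max 0 (min B (w x)), hσ, ?_, ?_, ?_⟩
  · have h1 : Measurable fun x => w x := (Lp.stronglyMeasurable w).measurable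
    exact measurable_const.max (measurable_const.min h1)
  · intro x
    exact ⟨le_max_left _ _, max_le hB (min_le_left _ _)⟩
  · intro g hg
    have h1 : ∫ x, g x * max 0 (min B (w x)) ∂ν = ∫ x, g x * w x ∂ν := by
      refine integral_congr_ae ?_
      filter_upwards [hw0, hwB] with x h2 h3
      have h4 : (0 : ℝ) ≤ w x := h2
      have h5 : (0 : ℝ) ≤ B - w x := h3
      rw [min_eq_right (by linarith), max_eq_right h4]
    rw [h1]
    exact hconv g hg

end Pool.Agent.E8helper36.QC
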